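import Mathlib
import Pool.Agent.H81.HDG.Model
import Pool.Agent.H81.HDG.Convert

set_option autoImplicit false

namespace Pool.Agent.Results.MP_77db41_gt.HDGSemihyperbolic

open Pool.Agent.H81.HDG

universe u v

/-- The fundamental group of every irreducible higher dimensional graph manifold is
semihyperbolic. -/
theorem result {n : ℕ} {G : Type u} [Group G] (M : HDGGroup.{u, v} n G) (hM : M.Irreducible) :
    Semihyperbolic G :=
  M.semihyperbolic hM

end Pool.Agent.Results.MP_77db41_gt.HDGSemihyperbolic
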